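import Pool.Agent.U121.VC.Asym

/-!
# Constant-depth reductions to gap weighted vertex cover: the threshold 2

Circuits (`Circuit`, `nodeVal`, `nodeDepth`) are defined in `Pool/Agent/H568R2/Defs.lean`: they have
NOT gates and AND and OR gates of unbounded fan-in, and `size` is the number of gates.

Hardness of approximating vertex cover within the ratio `ρ` is proved by a gap reduction: it maps
inputs `x` to weighted graphs which have a cover of weight at most `k` if `f x = true`, and only
covers of weight at least `ρ k` if `f x = false`. The NP-hardness proofs without a gap usually are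
reductions of constant depth, and parity is in NP. For gap reductions of constant depth from
parity (or from any function `f` of large average sensitivity), also nonuniform ones and also if
they are correct only on average, we show that the cost of the ratio `2 - ε` tends to infinity for
`ε → 0`, and that they are impossible beyond 2:

* for ratios `ρ > 2` they do not exist at all, whatever the sizes of the graphs are, unless the
  circuits have exponential size;
* the ratio `2 - ε` needs graphs with `N ^ (1 / (40 ε) - 1)` vertices.

Idea of the proofs. Under a random restriction which leaves a fraction `(24 s) ^ (- h)` of the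
variables free, adjacencies and weights become decision trees of depth `s`. Consider a no-instance
`x` such that for all `i` in the set `J` of free variables, `x` with bit `i` flipped is a
yes-instance with a light cover `D i`. An edge of the graph of `x` is covered by all but `3 s` of the
sets `D i`. So the average of the `D i` is almost a fractional cover, and rounding gives a cover of
weight at most `2 k / (1 - 3 s / |J|)` (first part). For the second part, take the vertices which
get `t + 1` of the votes of `2 t + 2 c + 1` randomly chosen sets `D i`; this fails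
to be a cover only if some edge is missed by `2 c + 1` of the chosen sets, which is unlikely if the
number of vertices is less than `|J| ^ (c + 1 / 2)`, up to factors; by the choice of `t` the
expected weight is at most `(2 - 1 / (20 c)) k`.
-/

set_option autoImplicit false

namespace Pool.Agent.Results.MP_cff830_lc.ConstantDepthReductions

open Finset DomAC0

/-- The input `x` with the bit `i` flipped. -/
def flipBit {N : ℕ} (i : Fin N) (x : Fin N → Bool) : Fin N → Bool := Function.update x i (!(x i))

open Classical in
/-- The average sensitivity of `f` inside of `W`: the average over all inputs `x` (in `W` or not) of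
the number of the bits `i` such that `x` and `flipBit i x` belong to `W` and `f` has different
values there. -/
noncomputable def averageSensitivity {N : ℕ} (W : Finset (Fin N → Bool))
    (f : (Fin N → Bool) → Bool) : ℝ :=
  (∑ x : Fin N → Bool, ((univ.filter fun i : Fin N =>
    x ∈ W ∧ flipBit i x ∈ W ∧ f x ≠ f (flipBit i x)).card : ℝ)) / 2 ^ N

/-- The number of ones is even. -/
def parity {N : ℕ} (x : Fin N → Bool) : Bool := decide (Even (univ.filter fun i => x i = true).card)

/-- The property `P` of the inputs is constant, or it is computed by a node of the circuit `C` of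
depth at most `h`. -/
def Computed {N : ℕ} (C : Circuit (Fin N)) (h : ℕ) (P : (Fin N → Bool) → Prop) : Prop :=
  (∀ x, P x) ∨ (∀ x, ¬ P x) ∨
    ∃ node : Fin N ⊕ Fin C.size, C.nodeDepth node ≤ h ∧ ∀ x, C.nodeVal x node = true ↔ P x

/-- `S` is a vertex cover of `G`. -/
def IsCover {V : Type} (G : SimpleGraph V) (S : Finset V) : Prop :=
  ∀ u v, G.Adj u v → u ∈ S ∨ v ∈ S

/-- The circuit `C` computes at depth `h` a reduction of `f`, correct on the set `W` of inputs, to
weighted vertex cover with the gap between `k` and `ρ k`: the graphs `G x` on the vertex set `V` have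
the weights `w x`; for all `u, v` the adjacency of `u` and `v`, and for all `v, a` the property that
`a` is the weight of `v`, are computed by `C`; if `f x = true` then there is a cover of weight at
most `k`, if `f x = false` then all covers have weight at least `ρ k`. -/
structure GapReduction {N : ℕ} {V : Type} [Fintype V] (h : ℕ) (C : Circuit (Fin N))
    (W : Finset (Fin N → Bool)) (f : (Fin N → Bool) → Bool)
    (G : (Fin N → Bool) → SimpleGraph V) (w : (Fin N → Bool) → V → ℝ) (k ρ : ℝ) : Prop where
  adjacency : ∀ u v, Computed C h fun x => (G x).Adj u v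
  weight : ∀ v a, Computed C h fun x => w x v = a
  nonneg : ∀ x v, 0 ≤ w x v
  k_pos : 0 < k
  yes : ∀ x ∈ W, f x = true → ∃ S : Finset V, IsCover (G x) S ∧ ∑ v ∈ S, w x v ≤ k
  no : ∀ x ∈ W, f x = false → ∀ S : Finset V, IsCover (G x) S → ρ * k ≤ ∑ v ∈ S, w x v

/-- The bound `(number of gates) * N ≥ 2 ^ (X ^ (1 / (h + 1)) / 100)` if `X ≥ X₀`. -/
def Bound {N : ℕ} (h : ℕ) (X₀ : ℝ) (C : Circuit (Fin N)) (X : ℝ) : Prop :=
  X₀ ≤ X → (2 : ℝ) ^ (X ^ (1 / (h + 1 : ℝ)) / 100) ≤ C.size * N

/-- First part: for every depth `h` there is `X₀ > 0` such that for all reductions of depth `h` as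
above (with any number of inputs, any vertex set, `f`, `W`, `k`, `ρ`), where `a` is the average
sensitivity of `f` inside of `W`, the bound `(number of gates) * N ≥ 2 ^ (X ^ (1 / (h + 1)) / 100)`
holds whenever `X ≥ X₀` and
(1) `ρ > 2`, `X = (1 - 2 / ρ) a / 6`,
(2) `ρ ≥ 2 - 1 / (40 c)`, `X = a / (24000 c ^ 3 |V| ^ (1 / c))`, for an integer `c ≥ 1`.
Second part, for parity and circuits of polynomial size: for all `h, d, c` and `0 < ε ≤ 1` and for
all large `N`, if a circuit with `N` inputs and at most `N ^ d` gates computes at depth `h` a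
reduction of parity, correct on all inputs, to the gap between `k` and `ρ k`, then `ρ < 2 + ε`, and
if `ρ ≥ 2 - 1 / (40 (c + 1))` then `|V| ≥ N ^ c`. -/
theorem result (h : ℕ) :
    (∃ X₀ : ℝ, 0 < X₀ ∧ ∀ (N : ℕ) (V : Type) [Fintype V] (C : Circuit (Fin N))
      (W : Finset (Fin N → Bool)) (f : (Fin N → Bool) → Bool)
      (G : (Fin N → Bool) → SimpleGraph V) (w : (Fin N → Bool) → V → ℝ) (k ρ : ℝ),
      GapReduction h C W f G w k ρ →
      (2 < ρ → Bound h X₀ C ((1 - 2 / ρ) / 6 * averageSensitivity W f)) ∧
      (∀ c : ℕ, 1 ≤ c → 2 - 1 / (40 * c) ≤ ρ → Bound h X₀ C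
        (averageSensitivity W f / (24000 * c ^ 3 * (Fintype.card V : ℝ) ^ (1 / (c : ℝ)))))) ∧
    (∀ (d c : ℕ) (ε : ℝ), 0 < ε → ε ≤ 1 → ∃ N₀ : ℕ, ∀ N : ℕ, N₀ ≤ N →
      ∀ (V : Type) [Fintype V] (C : Circuit (Fin N))
      (G : (Fin N → Bool) → SimpleGraph V) (w : (Fin N → Bool) → V → ℝ) (k ρ : ℝ),
      C.size ≤ N ^ d → GapReduction h C univ parity G w k ρ →
      ρ < 2 + ε ∧ (2 - 1 / (40 * (c + 1)) ≤ ρ → (N : ℝ) ^ c ≤ Fintype.card V)) := by
  classical
  have hsens : ∀ {N : ℕ} (W : Finset (Fin N → Bool)) (f : (Fin N → Bool) → Bool),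
      averageSensitivity W f = Pool.Agent.U47.AC.avgSens W f := by
    intro N W f
    unfold averageSensitivity Pool.Agent.U47.AC.avgSens
    congr 1
    refine sum_congr rfl fun x _ => ?_
    congr 2
    ext i
    rw [mem_filter, mem_filter]
    exact Iff.rfl
  have hdata : ∀ {N : ℕ} {V : Type} [Fintype V] {C : Circuit (Fin N)}
      {W : Finset (Fin N → Bool)} {f : (Fin N → Bool) → Bool}
      {G : (Fin N → Bool) → SimpleGraph V} {w : (Fin N → Bool) → V → ℝ} {k ρ : ℝ},
      GapReduction h C W f G w k ρ → Pool.Agent.U121.VC.Data h C G w W f k ρ := by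
    intro N V _ C W f G w k ρ hG
    exact ⟨hG.adjacency, hG.weight, hG.nonneg, hG.k_pos, hG.yes, hG.no⟩
  constructor
  · obtain ⟨Xa, hXa, ha⟩ := Pool.Agent.U121.VC.no_main h
    refine ⟨Xa, hXa, ?_⟩
    intro N V _ C W f G w k ρ hG
    have hD := hdata hG
    unfold Bound
    rw [hsens]
    refine ⟨?_, ?_⟩
    · intro hρ hX
      exact ha hD _ hX (Or.inl ⟨hρ, le_rfl⟩)
    · intro c hc hρ hX
      exact ha hD _ hX (Or.inr (Or.inl ⟨c, hc, hρ, le_rfl⟩))
  · intro d c ε hε hε1
    obtain ⟨N₀, hN₀⟩ := Pool.Agent.U121.VC.parity_cor h d c hε hε1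
    refine ⟨N₀, fun N hN V _ C G w k ρ hS hG => ?_⟩
    have h1 := hN₀ N hN hS (hdata hG)
    exact ⟨h1.1, h1.2.1⟩

end Pool.Agent.Results.MP_cff830_lc.ConstantDepthReductions
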