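import Pool.Agent.U20.TN.Dnnf

/-!
# Vertex cover: decomposable circuits have no constant approximation ratio

A circuit (`Pool/Agent/U20/DN/Defs.lean`) has leaves which test one variable each, conjunctions of
two gates and disjunctions of arbitrarily many gates; it is decomposable (a DNNF) if no variable
occurs below both gates of a conjunction. An input is accepted if there is a proof tree (`Acc`).
The circuits need not be acyclic. This model contains the nondeterministic read-once branching
programs, and generally all nondeterministic algorithms and dynamic programs that divide the
edges between independent subproblems; different computations may read the variables in different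
orders and divide them along different trees. There are no cancellations, in contrast to the
tensor networks of the file `TensorNetworks` of this folder, where all computations have to use the
same tree; the two models are incomparable.

The inputs are the graphs with the vertices `0, ..., n - 1`, all weights are `1`; the variables are
the pairs of vertices (`Pool/Agent/U20/TN/VC.lean`). A decomposable circuit which accepts all
graphs with a vertex cover of at most `n / g` vertices and rejects all graphs in which every vertex
cover has at least `(1 - 1 / h) n` vertices has at least `2 ^ (n / P - 1)` gates,
`P = 2 ^ 25 * g ^ 4 * h ^ 8`. So for all constants `g` and `h` the number of gates is at least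
`2 ^ (c n)`, in this model no constant ratio is possible, nor a ratio `n ^ (1 / 4 - ε)`.
The bound holds up to the factor `2 ^ μ` also for random circuits which never accept a graph with
large covers only and accept every graph with a small cover with probability at
least `2 ^ (- μ)` (the deterministic case is `R = Unit`, `μ = 0`).

Conversely the trivial circuit, which guesses a cover, has at most `2 ^ n (n ^ 2 + 1) + 1` gates and
decides the size of the smallest vertex cover exactly. So the exponent is correct up to a constant
factor, for exact computation and for every constant ratio.

Proof: Let `θ = 2 y ^ 2`, `y = n / (32 g h ^ 2)`. In every proof tree of a circuit in which more than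
`2 θ` variables occur there is a gate `u` with more than `θ` variables, and a gate `w`, equal to `u`
or an input of the disjunction `u`, with at most `2 θ` variables. The circuit with a hole at
`u` (proof trees through `u` which end there) has the same gates, is decomposable, and the
variables of `u` do not occur in it any more. Iterating this, we see that among the accepted
inputs of any given family a fraction `s ^ (- 2 t)`, `s` the number of gates, is contained in one
product set of accepted inputs with respect to a partition of the variables into `t` parts with at
most `2 θ` variables each. We take the graphs of all pairs which touch a random set of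
vertices. Mixtures of `t` such graphs, the `j`-th one on the `j`-th part, have an independent set
with more than `n / h` vertices with probability at most `2 ^ (- n)` (this was proved for the file
`TensorNetworks`); so a product set of accepted inputs contains at most a fraction
`2 ^ (- n / t)` of our graphs.
-/

set_option autoImplicit false

namespace Pool.Agent.Results.MP_cff830_lc.DecomposableCircuits

open Pool.Agent.U20.DN Pool.Agent.U20.TN

theorem result :
    (∀ g h n : ℕ, 1 ≤ g → 1 ≤ h →
      ∀ (μ : ℕ) (R : Type) [Fintype R] [Nonempty R] (I : R → Type) [∀ ρ, Fintype (I ρ)]
        (G : ∀ ρ, I ρ → Gate (Pair n) Bool (I ρ)) (r : ∀ ρ, I ρ),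
        (∀ ρ, Decomposable (G ρ)) →
        (∀ ρ x, LargeCovers h x → ¬ Acc (G ρ) x (r ρ)) →
        (∀ x, SmallCover g x →
          Nat.card R ≤ 2 ^ μ * Nat.card {ρ // Acc (G ρ) x (r ρ)}) →
        ∃ ρ, 2 ^ n ≤ (2 ^ (μ + 1) * Fintype.card (I ρ)) ^ (2 ^ 25 * g ^ 4 * h ^ 8)) ∧
    (∀ n k : ℕ,
      ∃ (I : Type) (_ : Fintype I) (G : I → Gate (Pair n) Bool I) (r : I), Decomposable G ∧
        Fintype.card I ≤ 2 ^ n * (n * n + 1) + 1 ∧
          ∀ x, Acc G x r ↔ ∃ C : Finset (Fin n), IsCover x C ∧ C.card ≤ k) :=
  ⟨fun _ _ _ hg hh μ R _ _ I _ G r hd hno hyes => main_dnnf hg hh μ R I G r hd hno hyes,
    upper_dnnf⟩

end Pool.Agent.Results.MP_cff830_lc.DecomposableCircuits
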