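import Pool.Agent.U121.VC.Asym

/-!
# Constant-depth reductions to gap vertex cover, for every ratio: quadratic blow-up

Circuits (`Circuit`, `nodeVal`, `nodeDepth`) are defined in `Pool/Agent/H568R2/Defs.lean`: they have
NOT gates and AND and OR gates of unbounded fan-in, and `size` is the number of gates.

Hardness of approximating vertex cover within the ratio `ρ` is proved by a gap reduction: it maps
inputs `x` to weighted graphs which have a cover of weight at most `k` if `f x = true`, and only
covers of weight at least `ρ k` if `f x = false`. The NP-hardness proofs without a gap usually are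
reductions of constant depth, and parity is in NP. We show for gap reductions of constant depth from
parity (or from any function `f` of large average sensitivity), also nonuniform ones and also if
they are correct only on average, that for every ratio `1 + ε` the graphs have `N ^ (2 - o(1))`
vertices (without weights, if `k` is proportional to the number of vertices), and that also with
weights there are vertices of degree `N ^ (1 - o(1))`.

Idea of the proofs. Under a random restriction which leaves a fraction `(24 s) ^ (- h)` of the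
variables free, adjacencies and weights become decision trees of depth `s`. Consider a yes-instance
`x` and its cover. If the flip of a free bit gives a no-instance then a matching of size
`m = (ρ - 1) k / 2` appears outside of the cover. A random set `T` of vertices of density `1 / √m`
contains one of its edges with probability at least `1 / 2`, and so the bits are critical for the
conjunction of the shallow formulas which say that `T` has no edge outside of the cover. By the
coding lemma of Paturi, Pudlák and Zane such a conjunction has few solutions with many critical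
variables, and there are only `2 ^ |T|` of these conjunctions. For the degrees, consider a
no-instance `x` such that for all `i` in the set `J` of free variables, `x` with bit `i` flipped
is a yes-instance with a light cover `D i`. An edge of the graph of `x` is covered by all but `3 s`
of the sets `D i`. So one random `D i` with the lighter ends of the edges which it misses is a
cover of expected weight at most `k + 6 s Δ OPT / |J|`.
-/

set_option autoImplicit false

namespace Pool.Agent.Results.MP_cff830_lc.GraphsMustBeLarge

open Finset DomAC0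

/-- The input `x` with the bit `i` flipped. -/
def flipBit {N : ℕ} (i : Fin N) (x : Fin N → Bool) : Fin N → Bool := Function.update x i (!(x i))

open Classical in
/-- The average sensitivity of `f` inside of `W`: the average over all inputs `x` (in `W` or not) of
the number of the bits `i` such that `x` and `flipBit i x` belong to `W` and `f` has different
values there. -/
noncomputable def averageSensitivity {N : ℕ} (W : Finset (Fin N → Bool))
    (f : (Fin N → Bool) → Bool) : ℝ :=
  (∑ x : Fin N → Bool, ((univ.filter fun i : Fin N =>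
    x ∈ W ∧ flipBit i x ∈ W ∧ f x ≠ f (flipBit i x)).card : ℝ)) / 2 ^ N

/-- The number of ones is even. -/
def parity {N : ℕ} (x : Fin N → Bool) : Bool := decide (Even (univ.filter fun i => x i = true).card)

/-- The property `P` of the inputs is constant, or it is computed by a node of the circuit `C` of
depth at most `h`. -/
def Computed {N : ℕ} (C : Circuit (Fin N)) (h : ℕ) (P : (Fin N → Bool) → Prop) : Prop :=
  (∀ x, P x) ∨ (∀ x, ¬ P x) ∨
    ∃ node : Fin N ⊕ Fin C.size, C.nodeDepth node ≤ h ∧ ∀ x, C.nodeVal x node = true ↔ P x

/-- `S` is a vertex cover of `G`. -/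
def IsCover {V : Type} (G : SimpleGraph V) (S : Finset V) : Prop :=
  ∀ u v, G.Adj u v → u ∈ S ∨ v ∈ S

/-- The circuit `C` computes at depth `h` a reduction of `f`, correct on the set `W` of inputs, to
weighted vertex cover with the gap between `k` and `ρ k`: the graphs `G x` on the vertex set `V` have
the weights `w x`; for all `u, v` the adjacency of `u` and `v`, and for all `v, a` the property that
`a` is the weight of `v`, are computed by `C`; if `f x = true` then there is a cover of weight at
most `k`, if `f x = false` then all covers have weight at least `ρ k`. -/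
structure GapReduction {N : ℕ} {V : Type} [Fintype V] (h : ℕ) (C : Circuit (Fin N))
    (W : Finset (Fin N → Bool)) (f : (Fin N → Bool) → Bool)
    (G : (Fin N → Bool) → SimpleGraph V) (w : (Fin N → Bool) → V → ℝ) (k ρ : ℝ) : Prop where
  adjacency : ∀ u v, Computed C h fun x => (G x).Adj u v
  weight : ∀ v a, Computed C h fun x => w x v = a
  nonneg : ∀ x v, 0 ≤ w x v
  k_pos : 0 < k
  yes : ∀ x ∈ W, f x = true → ∃ S : Finset V, IsCover (G x) S ∧ ∑ v ∈ S, w x v ≤ k
  no : ∀ x ∈ W, f x = false → ∀ S : Finset V, IsCover (G x) S → ρ * k ≤ ∑ v ∈ S, w x v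

open Classical in
/-- All degrees in `G` are at most `Δ`. -/
def DegreesAtMost {V : Type} [Fintype V] (Δ : ℝ) (G : SimpleGraph V) : Prop :=
  ∀ u, ((univ.filter fun v => G.Adj u v).card : ℝ) ≤ Δ

/-- The bound `(number of gates) * N ≥ 2 ^ (X ^ (1 / (h + 1)) / 100)` if `X ≥ X₀`. -/
def Bound {N : ℕ} (h : ℕ) (X₀ : ℝ) (C : Circuit (Fin N)) (X : ℝ) : Prop :=
  X₀ ≤ X → (2 : ℝ) ^ (X ^ (1 / (h + 1 : ℝ)) / 100) ≤ C.size * N

/-- First part: for every depth `h` there is `X₀ > 0` such that for all reductions of depth `h` as
above with `ρ > 1` (with any number of inputs, any vertex set, `f`, `W`, `k`), where `a` is the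
average sensitivity of `f` inside of `W`, the bound
`(number of gates) * N ≥ 2 ^ (X ^ (1 / (h + 1)) / 100)` holds whenever `X ≥ X₀` and
(1) all weights are 1 and `X = a / (12 (1 + |V| √(2 / ((ρ - 1) k))))`, or
(2) the degrees in the graphs `G x` with `x ∈ W` and `f x = false` are at most `Δ`, `Δ ≥ 1`, and
`X = (1 - 1 / ρ) a / (12 Δ)`.
Second part, for parity and circuits of polynomial size: for all `h, d` and `0 < ε ≤ 1` and for
all large `N`, if a circuit with `N` inputs and at most `N ^ d` gates computes at depth `h` a
reduction of parity, correct on all inputs, to the gap between `k` and `ρ k`, `ρ ≥ 1 + ε`, then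
(3) if all weights are 1 and `k ≥ ε |V|` then `|V| ≥ N ^ (2 - ε)`,
(4) if the degrees in the graphs with `f x = false` are at most `Δ`, `Δ ≥ 1`, then
`Δ ≥ N ^ (1 - ε)`. -/
theorem result (h : ℕ) :
    (∃ X₀ : ℝ, 0 < X₀ ∧ ∀ (N : ℕ) (V : Type) [Fintype V] (C : Circuit (Fin N))
      (W : Finset (Fin N → Bool)) (f : (Fin N → Bool) → Bool)
      (G : (Fin N → Bool) → SimpleGraph V) (w : (Fin N → Bool) → V → ℝ) (k ρ : ℝ),
      GapReduction h C W f G w k ρ → 1 < ρ →
      ((∀ x v, w x v = 1) → Bound h X₀ C
        (averageSensitivity W f / (12 * (1 + Fintype.card V * √(2 / ((ρ - 1) * k)))))) ∧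
      (∀ Δ : ℝ, 1 ≤ Δ → (∀ x ∈ W, f x = false → DegreesAtMost Δ (G x)) →
        Bound h X₀ C ((1 - 1 / ρ) / (12 * Δ) * averageSensitivity W f))) ∧
    (∀ (d : ℕ) (ε : ℝ), 0 < ε → ε ≤ 1 → ∃ N₀ : ℕ, ∀ N : ℕ, N₀ ≤ N →
      ∀ (V : Type) [Fintype V] (C : Circuit (Fin N))
      (G : (Fin N → Bool) → SimpleGraph V) (w : (Fin N → Bool) → V → ℝ) (k ρ : ℝ),
      C.size ≤ N ^ d → GapReduction h C univ parity G w k ρ → 1 + ε ≤ ρ →
      ((∀ x v, w x v = 1) → ε * Fintype.card V ≤ k → (N : ℝ) ^ (2 - ε) ≤ Fintype.card V) ∧
      (∀ Δ : ℝ, 1 ≤ Δ → (∀ x, parity x = false → DegreesAtMost Δ (G x)) →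
        (N : ℝ) ^ (1 - ε) ≤ Δ)) := by
  classical
  have hsens : ∀ {N : ℕ} (W : Finset (Fin N → Bool)) (f : (Fin N → Bool) → Bool),
      averageSensitivity W f = Pool.Agent.U47.AC.avgSens W f := by
    intro N W f
    unfold averageSensitivity Pool.Agent.U47.AC.avgSens
    congr 1
    refine sum_congr rfl fun x _ => ?_
    congr 2
    ext i
    rw [mem_filter, mem_filter]
    exact Iff.rfl
  have hdata : ∀ {N : ℕ} {V : Type} [Fintype V] {C : Circuit (Fin N)}
      {W : Finset (Fin N → Bool)} {f : (Fin N → Bool) → Bool}
      {G : (Fin N → Bool) → SimpleGraph V} {w : (Fin N → Bool) → V → ℝ} {k ρ : ℝ},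
      GapReduction h C W f G w k ρ → Pool.Agent.U121.VC.Data h C G w W f k ρ := by
    intro N V _ C W f G w k ρ hG
    exact ⟨hG.adjacency, hG.weight, hG.nonneg, hG.k_pos, hG.yes, hG.no⟩
  constructor
  · obtain ⟨Xa, hXa, ha⟩ := Pool.Agent.U121.VC.no_main h
    obtain ⟨Xb, hXb, hb⟩ := Pool.Agent.U121.VC.yes_main h
    refine ⟨max Xa Xb, lt_max_of_lt_left hXa, ?_⟩
    intro N V _ C W f G w k ρ hG
    have hD := hdata hG
    unfold Bound
    rw [hsens]
    intro hρ
    refine ⟨?_, ?_⟩
    · intro hw1 hX
      exact hb hD hw1 hρ _ ((le_max_right _ _).trans hX) le_rfl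
    · intro Δ hΔ hdeg hX
      refine ha hD _ ((le_max_left _ _).trans hX) (Or.inr (Or.inr ⟨hρ, Δ, hΔ, ?_, le_rfl⟩))
      intro x hx hf u
      refine le_trans (le_of_eq ?_) (hdeg x hx hf u)
      congr 2
  · intro d ε hε hε1
    obtain ⟨N₀, hN₀⟩ := Pool.Agent.U121.VC.parity_cor h d 0 hε hε1
    refine ⟨N₀, fun N hN V _ C G w k ρ hS hG hρ => ?_⟩
    have h1 := hN₀ N hN hS (hdata hG)
    refine ⟨h1.2.2.2 hρ, ?_⟩
    intro Δ hΔ hdeg
    refine h1.2.2.1 hρ Δ hΔ fun x hx u => ?_
    refine le_trans (le_of_eq ?_) (hdeg x hx u)
    congr 2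

end Pool.Agent.Results.MP_cff830_lc.GraphsMustBeLarge
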