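import Pool.Agent.U20.TN.Main

/-!
# Vertex cover: read-once tensor networks have no constant approximation ratio

A tree tensor network `Net K V A W` (`Pool/Agent/TH700/PA/Defs.lean`) has leaves that read one
variable each (with a vector in `K ^ W` for each of its values); an inner node combines the vectors
of its two children by an arbitrary bilinear map. It accepts the input `x` if a linear form of the
vector of the root is not zero. The field `K` and the weights are arbitrary, so there may be
cancellations, and the tree is arbitrary. If every right child is a leaf then this is a matrix
product (a weighted ordered read-once branching program, for any order of the variables). The bond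
dimension is `card W`.

The inputs are the graphs with the vertices `0, ..., n - 1`, all weights are `1`; the variables are
the pairs of vertices (`Pool/Agent/U20/TN/VC.lean`). A network which reads every pair at most
once, accepts all graphs with a vertex cover of at most `n / g` vertices and rejects all graphs in
which every vertex cover has at least `(1 - 1 / h) n` vertices satisfies
`2 ^ n ≤ (P * card W) ^ P`, `P = 2 ^ 14 * g ^ 2 * h ^ 4`, however many nodes it has. So for all
constants `g` and `h` the bond dimension is at least `2 ^ (c n)`, and it is superpolynomial as long
as `g ^ 2 * h ^ 4` is at most `n ^ (1 - ε)`. For `g = 2` these are the instances which matter for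
the ratio two; but in this model no constant ratio is possible, and no ratio
`n ^ (1 / 2 - ε)`. The bound holds up to the factor `2 ^ μ` also for random networks which never
accept a graph with large covers only and accept every graph with a small cover with
probability at least `2 ^ (- μ)` (the deterministic case is `R = Unit`, `μ = 0`).

Conversely the number of the vertex covers with at most `k` vertices is computed by a linear
network over `ℚ` which reads every pair once and has bond dimension at most `2 ^ n`. So the
exponent is correct up to a constant factor, for exact computation and for every constant ratio.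

Proof: Take a random set of vertices which contains each vertex with probability `1 / (2 g)`, and the
graph of all pairs which touch it; with probability at least `1 / 2` it has a cover of
at most `n / g` vertices. The nodes of the tree give a partition of the pairs into
`t = 2048 g ^ 2 h ^ 4 + 1` parts with at most `4 y ^ 2` pairs each, `y = n / (32 g h ^ 2)`, which
have small rank. Mix `t` independent random graphs, the `j`-th one on the `j`-th part. If a set `I`
of more than `n / h` vertices is independent in the mixture then the `j`-th random set avoids all
vertices of `I` which are in a pair of the `j`-th part inside `I`. As `m` vertices are in at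
most `min (m ^ 2) (4 y ^ 2) ≤ 2 y m` pairs of the part, there are at least `4 g n` such
places `(j, v)`, so this has probability at most `4 ^ (- n)`, and the mixture has a large
independent set with probability at most `2 ^ (- n)`. The replacement lemma of
`Pool/Agent/TH700/PA` (among more than `t * rank` accepted graphs some mixture of different ones is
accepted) gives the bound by averaging.
-/

set_option autoImplicit false

namespace Pool.Agent.Results.MP_cff830_lc.TensorNetworks

open Pool.Agent.TH700.PA Pool.Agent.U20.TN

theorem result :
    (∀ g h n : ℕ, 1 ≤ g → 1 ≤ h →
      ∀ (μ : ℕ) (R : Type) [Fintype R] [Nonempty R] (K W : R → Type) [∀ ρ, Field (K ρ)]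
        [∀ ρ, Fintype (W ρ)] (T : ∀ ρ, Net (K ρ) (Pair n) Bool (W ρ)) (a : ∀ ρ, W ρ → K ρ),
        (∀ ρ e, (T ρ).reads e ≤ 1) →
        (∀ ρ x, LargeCovers h x → (T ρ).value (a ρ) x = 0) →
        (∀ x, SmallCover g x →
          Nat.card R ≤ 2 ^ μ * Nat.card {ρ // (T ρ).value (a ρ) x ≠ 0}) →
        ∃ ρ, 2 ^ n ≤ (2 ^ 14 * g ^ 2 * h ^ 4 * (2 ^ μ * Fintype.card (W ρ))) ^
          (2 ^ 14 * g ^ 2 * h ^ 4)) ∧
    (∀ n : ℕ, 2 ≤ n → ∀ k : ℕ,
      ∃ (T : Net ℚ (Pair n) Bool {S : Finset (Fin n) // S.card ≤ k})
        (a : {S : Finset (Fin n) // S.card ≤ k} → ℚ),
        T.Linear ∧ (∀ e, T.reads e = 1) ∧ T.size = 2 * Fintype.card (Pair n) - 1 ∧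
          ∀ x, T.value a x ≠ 0 ↔ ∃ C : Finset (Fin n), IsCover x C ∧ C.card ≤ k) :=
  ⟨fun _ _ _ hg hh μ R _ _ K W _ _ T a h1 hno hyes => main_vc hg hh μ R K W T a h1 hno hyes,
    fun _ hn k => upper_vc hn k⟩

end Pool.Agent.Results.MP_cff830_lc.TensorNetworks
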